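import Pool.Agent.L7h55.TN.Stm

namespace Pool.Agent.L7h55.TN

/-- the functional form of a root -/
theorem S_eq {n : ℕ} {b : ℂ} (h : S n b = 0) :
    ((n : ℂ) + 1) * b - ((n : ℂ) - 1) = b ^ n * (((n : ℂ) + 1) - ((n : ℂ) - 1) * b) := by
  unfold S at h
  linear_combination h

theorem S_inv {n : ℕ} {z : ℂ} (hz : z ≠ 0) (h : S n z = 0) : S n z⁻¹ = 0 := by
  have hzn : z ^ (n + 1) ≠ 0 := pow_ne_zero _ hz
  have key : z ^ (n + 1) * S n z⁻¹ = - S n z := by
    unfold S
    have h1 : z ^ (n + 1) * z⁻¹ ^ (n + 1) = 1 := by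
      rw [← mul_pow, mul_inv_cancel₀ hz, one_pow]
    have h2 : z ^ (n + 1) * z⁻¹ ^ n = z := by
      rw [pow_succ, mul_assoc, mul_comm z, ← mul_assoc, ← mul_pow, mul_inv_cancel₀ hz, one_pow,
        one_mul]
    have h3 : z ^ (n + 1) * z⁻¹ = z ^ n := by
      rw [pow_succ, mul_assoc, mul_inv_cancel₀ hz, mul_one]
    linear_combination ((n : ℂ) - 1) * h1 - ((n : ℂ) + 1) * h2 + ((n : ℂ) + 1) * h3
  rw [h, neg_zero] at key
  exact (mul_eq_zero.mp key).resolve_left hzn

theorem S_zero {n : ℕ} (hn : 2 ≤ n) : S n 0 ≠ 0 := by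
  unfold S
  intro h
  have h0 : (0 : ℂ) ^ n = 0 := zero_pow (by omega)
  rw [h0, zero_pow (by omega)] at h
  have h2 : (n : ℂ) = 1 := by linear_combination -h
  have h3 : n = 1 := by exact_mod_cast h2
  omega

variable (R : ValuationSubring ℂ)

theorem vnat (k : ℕ) : R.valuation (k : ℂ) ≤ 1 :=
  (R.valuation_le_one_iff _).2 (natCast_mem R k)

theorem vint (k : ℤ) : R.valuation (k : ℂ) ≤ 1 :=
  (R.valuation_le_one_iff _).2 (intCast_mem R k)

theorem mul_lt {x y : ℂ} (hx : R.valuation x ≤ 1) (hy : R.valuation y < 1) :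
    R.valuation (x * y) < 1 := by
  rw [map_mul]
  calc R.valuation x * R.valuation y ≤ 1 * R.valuation y := by gcongr
    _ < 1 := by rw [one_mul]; exact hy

/-- an integer of value `< 1` is divisible by `p` -/
theorem dvd_of_v {p : ℕ} (hp : p.Prime) (hv : R.valuation (p : ℂ) < 1) {k : ℕ}
    (hk : R.valuation (k : ℂ) < 1) : p ∣ k := by
  by_contra hd
  have hc : IsCoprime (p : ℤ) (k : ℤ) := by
    rw [Int.isCoprime_iff_gcd_eq_one]
    exact_mod_cast (Nat.Prime.coprime_iff_not_dvd hp).2 hd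
  obtain ⟨a, c, hac⟩ := hc
  have h1 : (1 : ℂ) = (a : ℂ) * (p : ℂ) + (c : ℂ) * (k : ℂ) := by
    exact_mod_cast (congrArg (fun t : ℤ => (t : ℂ)) hac).symm
  have h2 : R.valuation (1 : ℂ) < 1 := by
    rw [h1]
    apply Valuation.map_add_lt
    · exact mul_lt R (vint R a) hv
    · exact mul_lt R (vint R c) hk
  rw [map_one] at h2
  exact lt_irrefl _ h2

/-- the residue characteristic -/
theorem exists_p {k : ℕ} (hk0 : k ≠ 0) (hk : R.valuation (k : ℂ) < 1) :
    ∃ p : ℕ, p.Prime ∧ R.valuation (p : ℂ) < 1 := by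
  induction k using Nat.strong_induction_on with
  | _ k ih =>
    by_cases h1 : k = 1
    · rw [h1, Nat.cast_one, map_one] at hk
      exact absurd hk (lt_irrefl _)
    · have hq := Nat.minFac_prime h1
      obtain ⟨l, hl⟩ := Nat.minFac_dvd k
      by_cases hv : R.valuation (k.minFac : ℂ) < 1
      · exact ⟨_, hq, hv⟩
      · have hv1 : R.valuation (k.minFac : ℂ) = 1 := le_antisymm (vnat R _) (not_lt.mp hv)
        have hl0 : l ≠ 0 := by
          rintro rfl
          rw [mul_zero] at hl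
          exact hk0 hl
        have hlk : l < k := by
          have h2 := hq.two_le
          have : l * 2 ≤ k := by
            calc l * 2 ≤ l * k.minFac := Nat.mul_le_mul_left _ h2
              _ = k := by rw [mul_comm]; exact hl.symm
          omega
        refine ih l hlk hl0 ?_
        have h3 : R.valuation (k : ℂ) = R.valuation (l : ℂ) := by
          have : (k : ℂ) = (k.minFac : ℂ) * (l : ℂ) := by
            exact_mod_cast congrArg (fun t : ℕ => (t : ℂ)) hl
          rw [this, map_mul, hv1, one_mul]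
        rwa [h3] at hk

/-- the value of `A` is less than one -/
theorem v_A {b : ℂ} {A B n : ℕ} (hb : R.valuation b < 1) (hn : 1 ≤ n)
    (h : (B : ℂ) * b - A = b ^ n * ((B : ℂ) - A * b)) : R.valuation (A : ℂ) < 1 := by
  have h1 : (A : ℂ) = (B : ℂ) * b + - (b ^ n * ((B : ℂ) - A * b)) := by
    linear_combination -h
  rw [h1]
  have h2 : R.valuation ((B : ℂ) - A * b) ≤ 1 := by
    refine (Valuation.map_sub _ _ _).trans (max_le (vnat R B) ?_)
    rw [map_mul]
    exact mul_le_one' (vnat R A) hb.le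
  apply Valuation.map_add_lt
  · exact mul_lt R (vnat R B) hb
  · rw [Valuation.map_neg, map_mul, map_pow]
    have h3 : R.valuation b ^ n < 1 := pow_lt_one₀ zero_le hb (by omega)
    calc R.valuation b ^ n * R.valuation ((B : ℂ) - A * b) ≤ R.valuation b ^ n * 1 := by
          gcongr
      _ < 1 := by rw [mul_one]; exact h3

theorem s_FIN (hINT : S_INT) (hVAL : S_VAL) (hLEM : S_LEM) (hNZ : S_NZ) (hSIZ : S_SIZ)
    (hNUM : S_NUM) (hNUM2 : S_NUM2) : S_FIN := by
  intro m n hm hmn z hzm hzn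
  by_contra hne
  have hz0 : z ≠ 0 := by
    rintro rfl
    exact S_zero hm hzm
  have hint : ¬ IsIntegral ℤ z := fun h => hne (hINT m hm z hzm h)
  obtain ⟨R, hR⟩ := hVAL z hz0 hint
  set b := z⁻¹ with hb
  have hbm : S m b = 0 := S_inv hz0 hzm
  have hbn : S n b = 0 := S_inv hz0 hzn
  have em := S_eq hbm
  have en := S_eq hbn
  -- natural number versions
  have em' : ((m + 1 : ℕ) : ℂ) * b - ((m - 1 : ℕ) : ℂ) =
      b ^ m * (((m + 1 : ℕ) : ℂ) - ((m - 1 : ℕ) : ℂ) * b) := by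
    rw [Nat.cast_sub (by omega : 1 ≤ m)]
    push_cast
    exact em
  have en' : ((n + 1 : ℕ) : ℂ) * b - ((n - 1 : ℕ) : ℂ) =
      b ^ n * (((n + 1 : ℕ) : ℂ) - ((n - 1 : ℕ) : ℂ) * b) := by
    rw [Nat.cast_sub (by omega : 1 ≤ n)]
    push_cast
    exact en
  have vn := v_A R hR (by omega) en'
  have vm := v_A R hR (by omega) em'
  obtain ⟨p, hp, hvp⟩ := exists_p R (by omega : n - 1 ≠ 0) vn
  have hpn : p ∣ n - 1 := dvd_of_v R hp hvp vn
  have hpm : p ∣ m - 1 := dvd_of_v R hp hvp vm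
  rcases hp.eq_two_or_odd' with h2 | hodd
  · subst h2
    obtain ⟨k, hk⟩ := hpn
    obtain ⟨l, hl⟩ := hpm
    have hnk : n = 2 * k + 1 := by omega
    have hml : m = 2 * l + 1 := by omega
    have ek : ((k + 1 : ℕ) : ℂ) * b - (k : ℂ) = b ^ n * (((k + 1 : ℕ) : ℂ) - (k : ℂ) * b) := by
      have : (n : ℂ) = 2 * k + 1 := by exact_mod_cast hnk
      rw [this] at en
      push_cast
      have h3 : (2 : ℂ) ≠ 0 := two_ne_zero
      apply mul_left_cancel₀ h3
      linear_combination en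
    have el : ((l + 1 : ℕ) : ℂ) * b - (l : ℂ) = b ^ m * (((l + 1 : ℕ) : ℂ) - (l : ℂ) * b) := by
      have : (m : ℂ) = 2 * l + 1 := by exact_mod_cast hml
      rw [this] at em
      push_cast
      have h3 : (2 : ℂ) ≠ 0 := two_ne_zero
      apply mul_left_cancel₀ h3
      linear_combination em
    have dk : 2 ∣ k := dvd_of_v R hp hvp (v_A R hR (by omega) ek)
    have dl : 2 ∣ l := dvd_of_v R hp hvp (v_A R hR (by omega) el)
    have hl2 : 2 ≤ l := by
      obtain ⟨l', hl'⟩ := dl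
      omega
    have hBk : ¬ 2 ∣ k + 1 := by omega
    have hBl : ¬ 2 ∣ l + 1 := by omega
    obtain ⟨d1, d2⟩ := hLEM R b 2 k (k + 1) l (l + 1) m n hR hp hvp ek el hBk hBl hm hmn
    -- first divisibility
    have hkl : l < k := by omega
    have h1 : 2 ^ m ≤ k := by
      have e1 : (k : ℤ) * ((l + 1 : ℕ) : ℤ) - (l : ℤ) * ((k + 1 : ℕ) : ℤ) = (k : ℤ) - l := by
        push_cast; ring
      rw [e1] at d1
      have h5 := Int.le_of_dvd (by omega) d1
      have h6 : ((2 ^ m : ℕ) : ℤ) ≤ (k : ℤ) := by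
        push_cast
        push_cast at h5
        omega
      exact_mod_cast h6
    have hnz := hNZ k (k + 1) l (l + 1) m 2 hm (by omega) (by omega) (by omega) (by omega)
      (by omega)
    have hsz := hSIZ k (k + 1) l (l + 1) m (by omega) (by omega)
    have h7 := Int.le_of_dvd (abs_pos.mpr hnz) ((dvd_abs _ _).mpr d2)
    have h8 := h7.trans hsz
    have h9 : (2 : ℕ) ^ n ≤ m * (k + 1) ^ (m + 1) := by
      have e2 : ((l : ℤ) + ((l + 1 : ℕ) : ℤ)) = (m : ℤ) := by
        push_cast; omega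
      rw [e2] at h8
      exact_mod_cast h8
    have h10 := hNUM2 m k (by omega) h1
    rw [← hnk] at h10
    omega
  · have hp3 : 3 ≤ p := by
      have := hp.two_le
      rcases hodd with ⟨t, ht⟩
      omega
    have hp2 : ¬ p ∣ 2 := fun h => by
      have := Nat.le_of_dvd (by norm_num) h
      omega
    have hBn : ¬ p ∣ n + 1 := fun h => by
      apply hp2
      have h3 := Nat.dvd_sub h hpn
      have h4 : n + 1 - (n - 1) = 2 := by omega
      rwa [h4] at h3
    have hBm : ¬ p ∣ m + 1 := fun h => by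
      apply hp2
      have h3 := Nat.dvd_sub h hpm
      have h4 : m + 1 - (m - 1) = 2 := by omega
      rwa [h4] at h3
    obtain ⟨d1, d2⟩ := hLEM R b p (n - 1) (n + 1) (m - 1) (m + 1) m n hR hp hvp en' em'
      hBn hBm hm hmn
    have h1 : 3 ^ m + m ≤ n := by
      have e1 : ((n - 1 : ℕ) : ℤ) * ((m + 1 : ℕ) : ℤ) - ((m - 1 : ℕ) : ℤ) * ((n + 1 : ℕ) : ℤ)
          = 2 * ((n - m : ℕ) : ℤ) := by
        rw [Nat.cast_sub (by omega : 1 ≤ n), Nat.cast_sub (by omega : 1 ≤ m),
          Nat.cast_sub hmn.le]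
        push_cast; ring
      rw [e1] at d1
      have d3 : p ^ m ∣ 2 * (n - m) := by exact_mod_cast d1
      have hcop : Nat.Coprime (p ^ m) 2 :=
        Nat.Coprime.pow_left _ ((Nat.Prime.coprime_iff_not_dvd hp).2 hp2)
      have d4 : p ^ m ∣ n - m := hcop.dvd_of_dvd_mul_left d3
      have h5 := Nat.le_of_dvd (by omega) d4
      have h6 : 3 ^ m ≤ p ^ m := Nat.pow_le_pow_left hp3 m
      omega
    have hnz := hNZ (n - 1) (n + 1) (m - 1) (m + 1) m 1 hm (by omega) (by omega) (by omega)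
      (by omega) (by omega)
    have hsz := hSIZ (n - 1) (n + 1) (m - 1) (m + 1) m (by omega) (by omega)
    have h7 := Int.le_of_dvd (abs_pos.mpr hnz) ((dvd_abs _ _).mpr d2)
    have h8 := h7.trans hsz
    have h9 : p ^ n ≤ 2 * m * (n + 1) ^ (m + 1) := by
      have e2 : (((m - 1 : ℕ) : ℤ) + ((m + 1 : ℕ) : ℤ)) = ((2 * m : ℕ) : ℤ) := by
        rw [Nat.cast_sub (by omega : 1 ≤ m)]
        push_cast; ring
      rw [e2] at h8
      exact_mod_cast h8
    have h10 := hNUM m n hm h1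
    have h11 : 3 ^ n ≤ p ^ n := Nat.pow_le_pow_left hp3 n
    omega

end Pool.Agent.L7h55.TN
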