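import Mathlib

/-!
Project TN (helper55), MP_9c0351_nt: for m < n (m, n > 1) the polynomials
S_m and S_n have no common complex root except 1 and -1.
(`S n z` is the polynomial of the problem, evaluated at z.)

PROOF.
Write S_n(z) = (1+z)(1-z^n) - n (1+z^n)(1-z).

CIR. If |z| < 1 and S_n(z) = 0 then n (1+z^n)/(1-z^n) = (1+z)/(1-z); real parts:
n (1-|z|^(2n))/|1-z^n|^2 = (1-|z|^2)/|1-z|^2, so |sum_(k<n) z^k|^2 = n sum_(k<n) |z|^(2k);
but Cauchy-Schwarz gives <=, with equality only if all z^k (k<n) are equal, i.e. z = 1.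
If |z| > 1 use the root 1/z.

CYR. Let z be a root of unity. Let M be the odd part of n+1. M is coprime to n-1, and
(n-1)(z^(n+1)-1) = (n+1) z (z^(n-1)-1), so M divides z^(n+1)-1 in the algebraic integers.
If M > 1 then M >= 3 and all conjugates of (z^(n+1)-1)/M have absolute value <= 2/3, so
z^(n+1) = 1, hence z^(n-1) = 1, hence z^2 = 1. The same with n-1 in place of n+1.
If both n+1 and n-1 are powers of two then n = 3 and S_3 = 2(z^2-1)(z-1)^2.

INT. A root z of S_n which is an algebraic integer: its conjugates are roots of S_n, so all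
have absolute value 1 (CIR), so z is a root of unity (Kronecker), so z = 1 or -1 (CYR).

VAL. If z is not an algebraic integer then there is a valuation subring of the complex
numbers whose maximal ideal contains 1/z.

LEM. valuation computations, see the statement.

FIN. Let z be a common root, not 1 or -1. It is no algebraic integer (INT), so v(b) < 1
for b = 1/z, again a common root. Apply LEM with p the residue characteristic.
-/

namespace Pool.Agent.L7h55.TN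

/-- the polynomial `S_n` of the problem at `z` -/
noncomputable def S (n : ℕ) (z : ℂ) : ℂ :=
  ((n : ℂ) - 1) * (z ^ (n + 1) - 1) - ((n : ℂ) + 1) * (z ^ n - z)

/-- CIR (60 lines): all roots lie on the unit circle. -/
def S_CIR : Prop := ∀ n : ℕ, 2 ≤ n → ∀ z : ℂ, S n z = 0 → ‖z‖ = 1

/-- SML (40 lines): an algebraic integer all of whose conjugates have absolute value
less than one is zero. (Constant coefficient of the minimal polynomial.) -/
def S_SML : Prop := ∀ z : ℂ, IsIntegral ℤ z →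
  (∀ w : ℂ, Polynomial.aeval w (minpoly ℤ z) = 0 → ‖w‖ < 1) → z = 0

/-- ODD (40 lines, from SML): if `M ≥ 3` and `M` divides `η - 1` in the algebraic
integers, `η` a root of unity, then `η = 1`. -/
def S_ODD : Prop := ∀ (M : ℕ) (η g : ℂ) (k : ℕ), 3 ≤ M → 0 < k → η ^ k = 1 →
  IsIntegral ℤ g → η - 1 = M * g → η = 1

/-- CYR (60 lines, from ODD). -/
def S_CYR : Prop := ∀ n : ℕ, 2 ≤ n → ∀ z : ℂ, S n z = 0 →
  ∀ k : ℕ, 0 < k → z ^ k = 1 → z = 1 ∨ z = -1

/-- KRO (30 lines): Kronecker (Mathlib: NumberField.Embeddings.pow_eq_one_of_norm_eq_one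
for the number field generated by z). -/
def S_KRO : Prop := ∀ z : ℂ, IsIntegral ℤ z →
  (∀ w : ℂ, Polynomial.aeval w (minpoly ℤ z) = 0 → ‖w‖ = 1) → ∃ k : ℕ, 0 < k ∧ z ^ k = 1

/-- INT (30 lines, from CIR, CYR, KRO). -/
def S_INT : Prop := ∀ n : ℕ, 2 ≤ n → ∀ z : ℂ, S n z = 0 → IsIntegral ℤ z →
  z = 1 ∨ z = -1

/-- VAL (40 lines): Mathlib Ideal.image_subset_nonunits_valuationSubring for the
subring generated by 1/z and the ideal of 1/z (proper, else z is integral). -/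
def S_VAL : Prop := ∀ z : ℂ, z ≠ 0 → ¬ IsIntegral ℤ z →
  ∃ B : ValuationSubring ℂ, B.valuation z⁻¹ < 1

/-- LEM (100 lines): `v` valuation with `v b < 1`, `p` prime with `v p < 1`,
`B b - A = b^n (B - A b)`, `B' b - A' = b^m (B' - A' b)`, `p` divides neither `B` nor `B'`,
`2 ≤ m < n`. Then `v b = v A = v A'`, so `p` divides `A`, `A'` and `v b ≤ v p`;
`B (B' b - A') - B' (B b - A) = A B' - A' B` has value at most `v b ^ m`, so `p^m` divides it;
`B^(m+1) (F(A/B) - F(b))`, `F(x) = A'(x^(m+1)-1) - B'(x^m-x)`, has value at most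
`v (A/B - b) = v b ^ n`, and `F(b) = 0`, so `p^n` divides the integer `B^(m+1) F(A/B)`. -/
def S_LEM : Prop := ∀ (R : ValuationSubring ℂ) (b : ℂ) (p A B A' B' m n : ℕ),
  R.valuation b < 1 → p.Prime → R.valuation (p : ℂ) < 1 →
  (B : ℂ) * b - A = b ^ n * ((B : ℂ) - A * b) →
  (B' : ℂ) * b - A' = b ^ m * ((B' : ℂ) - A' * b) →
  ¬ p ∣ B → ¬ p ∣ B' → 2 ≤ m → m < n →
  ((p : ℤ) ^ m ∣ (A : ℤ) * B' - A' * B) ∧
  ((p : ℤ) ^ n ∣ (A' : ℤ) * ((A : ℤ) ^ (m + 1) - (B : ℤ) ^ (m + 1))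
    - B' * ((A : ℤ) ^ m * B - A * (B : ℤ) ^ m))

/-- NZ (30 lines, from CIR): the integer in LEM is not zero
(`A/B` is in (0,1), so it is no root of `S_m`). -/
def S_NZ : Prop := ∀ (A B A' B' m g : ℕ), 2 ≤ m → 0 < A → A < B → 0 < g →
  g * A' = m - 1 → g * B' = m + 1 →
  (A' : ℤ) * ((A : ℤ) ^ (m + 1) - (B : ℤ) ^ (m + 1))
    - B' * ((A : ℤ) ^ m * B - A * (B : ℤ) ^ m) ≠ 0

/-- SIZ (15 lines): size of the integer in LEM. -/
def S_SIZ : Prop := ∀ (A B A' B' m : ℕ), A ≤ B → 1 ≤ m →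
  |(A' : ℤ) * ((A : ℤ) ^ (m + 1) - (B : ℤ) ^ (m + 1))
    - B' * ((A : ℤ) ^ m * B - A * (B : ℤ) ^ m)| ≤ (A' + B' : ℤ) * (B : ℤ) ^ (m + 1)

/-- NUM (40 lines): numerical lemma for odd p. -/
def S_NUM : Prop := ∀ m n : ℕ, 2 ≤ m → 3 ^ m + m ≤ n → 2 * m * (n + 1) ^ (m + 1) < 3 ^ n

/-- NUM2 (40 lines): numerical lemma for p = 2 (`n = 2k+1`). -/
def S_NUM2 : Prop := ∀ m k : ℕ, 5 ≤ m → 2 ^ m ≤ k → m * (k + 1) ^ (m + 1) < 2 ^ (2 * k + 1)

/-- FIN (80 lines): the theorem, from INT VAL LEM NZ SIZ NUM NUM2 (helper55). -/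
def S_FIN : Prop := ∀ m n : ℕ, 2 ≤ m → m < n → ∀ z : ℂ, S m z = 0 → S n z = 0 →
  z = 1 ∨ z = -1

end Pool.Agent.L7h55.TN
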