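import Pool.Agent.L7h55.TN.Stm

/-!
Project TN, second half (helper55), MP_9c0351_nt: IRREDUCIBILITY of the reduced polynomial
for odd n = 2A+1, unless A = D E, D, E >= 2 coprime, with
D^(2A) = 1 mod (A+1)E and E^(2A) = 1 mod (A+1)D.

PROOF. T = T A = A(x^(n+1)-1) - (A+1)(x^n-x) = x^n (A x - B) + (B x - A), B = A+1 (S_n = 2T).
Let T = (x-1)^3 (x+1) f g, f, g integer polynomials of positive degree and positive leading
coefficients D, E. Mod a prime p | A the polynomial T has degree n = deg T - 1, so p divides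
exactly one of D, E; DE = A. The roots of f are on the unit circle and not 1, -1 (RT), so f > 0
on the reals, deg f is even, f(0) = D (POS, CON). D >= 2 since otherwise a root of f would be
an algebraic integer (INT).
Let F(a,b) = sum f_i a^i b^(deg f - i) be the homogeneous form. F(A,B) G(A,B) = A^n (HP: put
x = A/B in the equation: T(A/B) B^(n+1) = A^n (A^2-B^2), (A-B)^3 (A+B) = -(A+B)).
If p | D then f has a p-adic root b with v(b) < 1 (PRM), v(A/B - b) = v(b)^n = v(A)^n, so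
v(F(A,B)) <= v(f(A/B) - f(b)) <= v(A)^n = v(D)^n. So D^n | F(A,B) (HD), also E^n | G(A,B),
and F(A,B) > 0, so F(A,B) = D^n (HE). Now F(A,B) = D A^(deg f) = D mod B (A = -1 mod B) and
F(A,B) = f(0) B^(deg f) = D mod E (A = 0, B = 1 mod E). So D^n = D modulo B and modulo E.
-/

open Polynomial

namespace Pool.Agent.L7h55.TN

/-- the polynomial `S_n` of the problem -/
noncomputable def SP (n : ℕ) : ℤ[X] :=
  C ((n : ℤ) - 1) * (X ^ (n + 1) - 1) - C ((n : ℤ) + 1) * (X ^ n - X)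

/-- `T A`, half of `S_n` for `n = 2A+1` -/
noncomputable def T (A : ℕ) : ℤ[X] :=
  C (A : ℤ) * (X ^ (2 * A + 2) - 1) - C ((A : ℤ) + 1) * (X ^ (2 * A + 1) - X)

/-- the factor that is removed -/
noncomputable def L4 : ℤ[X] := (X - 1) ^ 3 * (X + 1)

/-- a factorization of the reduced polynomial -/
structure Fac (A : ℕ) (f g : ℤ[X]) : Prop where
  eq : L4 * (f * g) = T A
  df : 0 < f.natDegree
  dg : 0 < g.natDegree
  lf : 0 < f.leadingCoeff
  lg : 0 < g.leadingCoeff

/-- homogeneous form -/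
noncomputable def H (f : ℤ[X]) (a b : ℤ) : ℤ :=
  ∑ i ∈ Finset.range (f.natDegree + 1), f.coeff i * a ^ i * b ^ (f.natDegree - i)

/-- RT (70 lines, from CIR): roots of a factor. `z ≠ 1`: else `(X-1)^4` divides `T A`, so
`(X-1)^2` divides the second derivative `2A(A+1)(2A+1) X^(2A-1) (X-1)`. `z ≠ -1`: else
`(X+1)^2` divides `T A`, but `T'(-1) = -4A(A+1)`. (Map to the complex numbers.) -/
def S_RT : Prop := ∀ (A : ℕ) (f g : ℤ[X]), 2 ≤ A → Fac A f g → ∀ z : ℂ,
  aeval z f = 0 → S (2 * A + 1) z = 0 ∧ ‖z‖ = 1 ∧ z ≠ 1 ∧ z ≠ -1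

/-- LC (40 lines): leading and constant coefficients. -/
def S_LC : Prop := ∀ (A : ℕ) (f g : ℤ[X]), 2 ≤ A → Fac A f g →
  f.leadingCoeff * g.leadingCoeff = A ∧ f.coeff 0 * g.coeff 0 = A ∧
  f.natDegree + g.natDegree + 2 = 2 * A

/-- POS (60 lines, from RT): no real roots, so positive on the reals and of even degree. -/
def S_POS : Prop := ∀ (A : ℕ) (f g : ℤ[X]), 2 ≤ A → Fac A f g →
  (∀ x : ℝ, 0 < aeval x f) ∧ Even f.natDegree

/-- CON (40 lines, from RT POS): the constant coefficient is the leading coefficient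
(its absolute value is, since all roots have absolute value one). -/
def S_CON : Prop := ∀ (A : ℕ) (f g : ℤ[X]), 2 ≤ A → Fac A f g → f.coeff 0 = f.leadingCoeff

/-- COP (50 lines): `D`, `E` coprime: if a prime `p` divides both then it divides the
coefficient `-(A+1)` of `X^(2A+1)` in `T A = (X^4 - 2X^3 + 2X - 1) f g`, and `A = DE`. -/
def S_COP : Prop := ∀ (A : ℕ) (f g : ℤ[X]), 2 ≤ A → Fac A f g →
  IsCoprime f.leadingCoeff g.leadingCoeff

/-- PRM (60 lines): a factor with leading coefficient of value `< 1`, constant coefficient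
equal to it and a coefficient of value 1 has a root of value `< 1`. (Otherwise all roots
have value `≥ 1`, product of values is 1, so all are 1, and all coefficients have value
at most that of the leading coefficient, by Vieta or by
`f = D ∏ (X - root)`.) -/
def S_PRM : Prop := ∀ (R : ValuationSubring ℂ) (f : ℤ[X]),
  R.valuation (f.leadingCoeff : ℂ) < 1 → f ≠ 0 → f.coeff 0 = f.leadingCoeff →
  (∃ i, R.valuation (f.coeff i : ℂ) = 1) → ∃ b : ℂ, aeval b f = 0 ∧ R.valuation b < 1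

/-- EXV (30 lines): for a prime `p` there is a valuation subring of the complex numbers with
`v p < 1` (ideal `(p)` of the subring of integers). -/
def S_EXV : Prop := ∀ p : ℕ, p.Prime → ∃ R : ValuationSubring ℂ, R.valuation (p : ℂ) < 1

/-- HD (90 lines, from RT LC CON COP PRM EXV): `D^n` divides `F(A,B)`. See L7h55/TN/Fin.lean
(dvd_of_v, vint) and L7h16/TN/Lem.lean (pow_dvd_of_le) for valuations of integers. -/
def S_HD : Prop := ∀ (A : ℕ) (f g : ℤ[X]), 2 ≤ A → Fac A f g →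
  f.leadingCoeff ^ (2 * A + 1) ∣ H f A (A + 1)

/-- HP (50 lines): the product. (`b^deg f(a/b) = H f a b`.) -/
def S_HP : Prop := ∀ (A : ℕ) (f g : ℤ[X]), 2 ≤ A → Fac A f g →
  H f A (A + 1) * H g A (A + 1) = (A : ℤ) ^ (2 * A + 1)

/-- HE (40 lines, from HD HP LC POS). -/
def S_HE : Prop := ∀ (A : ℕ) (f g : ℤ[X]), 2 ≤ A → Fac A f g →
  H f A (A + 1) = f.leadingCoeff ^ (2 * A + 1)

/-- CG (40 lines): congruences for the form. -/
def S_CG : Prop := ∀ (A : ℕ) (f : ℤ[X]) (E : ℤ), Even f.natDegree →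
  f.coeff 0 = f.leadingCoeff → E ∣ (A : ℤ) →
  ((A : ℤ) + 1 ∣ H f A (A + 1) - f.leadingCoeff) ∧ (E ∣ H f A (A + 1) - f.leadingCoeff)

/-- TWO (30 lines, from RT INT): `D ≥ 2`, else `f` is monic and its roots are algebraic
integers. -/
def S_TWO : Prop := ∀ (A : ℕ) (f g : ℤ[X]), 2 ≤ A → Fac A f g → 2 ≤ f.leadingCoeff

/-- the exceptional factorizations of `A` -/
def Exc (A D E : ℕ) : Prop := 2 ≤ D ∧ 2 ≤ E ∧ D.Coprime E ∧ D * E = A ∧
  D ^ (2 * A) ≡ 1 [MOD (A + 1) * E] ∧ E ^ (2 * A) ≡ 1 [MOD (A + 1) * D]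

/-- OUT (60 lines, from LC COP HE POS CON CG TWO). `D` is prime to `A+1` and to `E`, so
`D^(2A+1) = D` gives `D^(2A) = 1`. -/
def S_OUT : Prop := ∀ (A : ℕ) (f g : ℤ[X]), 2 ≤ A → Fac A f g → ∃ D E : ℕ, Exc A D E

/-- GAU (90 lines): Gauss. `SP (2A+1) = 2 T A`, `L4` is monic, `T A` is primitive. -/
def S_GAU : Prop := ∀ (A : ℕ) (P : ℚ[X]), 2 ≤ A →
  (X - 1) ^ 3 * (X + 1) * P = (SP (2 * A + 1)).map (Int.castRingHom ℚ) →
  ¬ Irreducible P → ∃ f g : ℤ[X], Fac A f g

/-- COR (50 lines): no exceptional factorization for `A = c q^a`, `q` prime not dividing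
`c` and not dividing `D^(2c) - 1` for the unitary divisors `D > 1` of `c`. (If `q` divides
`E`, then `D` divides `c`, and `D^(2A) = D^(2c)` mod `q` by Fermat.) -/
def S_COR : Prop := ∀ (c q a : ℕ), q.Prime → 0 < a → 0 < c → ¬ q ∣ c →
  (∀ D : ℕ, 2 ≤ D → D ∣ c → D.Coprime (c / D) → ¬ D ^ (2 * c) ≡ 1 [MOD q]) →
  ∀ D E : ℕ, ¬ Exc (c * q ^ a) D E

end Pool.Agent.L7h55.TN
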