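import Pool.Agent.L7h55.TN.Stm2

/-!
Project TN, third part (helper55), MP_9c0351_nt: degree conditions for the factors of the
reduced polynomial for odd n = 2A+1 at primes r >= 5 dividing n exactly once, and for
A + 1 prime. Notation of Stm2.lean.

T = (A X - B)(X^n - 1) + n (X - 1), B = A + 1, A + B = n.

RNC. Let r || n, n = r l. Modulo r (A = -B): f g (X-1)^3 = -B (X^n-1) = -B (X^l-1)^r.
Suppose an irreducible w in F_r[X] divides f and g mod r; then w | X^l - 1.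
If w is not X - 1 up to units: let W be an integer lift of w; f = W f1 + r f2,
g = W g1 + r g2, X^l - 1 = W u1 + r u2, and X^n - 1 = (X^l-1)(1 + X^l + ... + X^(l(r-1))),
the second factor is r + (X^l-1)(...) , so T = W^2 (..) + r W (..) + r^2 (..) + n (X-1) and
T = L4 f g = W^2 (..) + r W (..) + r^2 (..), so r l (X-1) = W^2 a + r W b + r^2 c;
mod r: a = 0 mod r, a = r a', l (X-1) = W^2 a' + W b + r c, so w divides l (X-1) mod r:
contradiction. If w = X - 1: r divides f(1) and g(1), but 6 f(1) g(1) = A(A+1)n and r || n.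
-/

open Polynomial

namespace Pool.Agent.L7h55.TN

/-- VAL1 (60 lines): `T'' = 2A(A+1)(2A+1) X^(2A-1) (X-1)` and `T'(-1) = -4A(A+1)`. -/
def S_VAL1 : Prop := ∀ (A : ℕ) (f g : ℤ[X]), 2 ≤ A → Fac A f g →
  6 * (f.eval 1 * g.eval 1) = (A : ℤ) * (A + 1) * (2 * A + 1) ∧
  2 * (f.eval (-1) * g.eval (-1)) = (A : ℤ) * (A + 1)

/-- RNC (90 lines, from VAL1): see above. -/
def S_RNC : Prop := ∀ (A r : ℕ) (f g : ℤ[X]) [Fact r.Prime], 2 ≤ A → Fac A f g → 5 ≤ r →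
  r ∣ 2 * A + 1 → ¬ r ^ 2 ∣ 2 * A + 1 →
  IsCoprime (f.map (Int.castRingHom (ZMod r))) (g.map (Int.castRingHom (ZMod r)))

/-- RND (80 lines, from RNC, LC). Mod `r`: `f g (X-1)^3 = -B (X^l-1)^r`, so with
`V = (X^l-1)/(X-1)`: `f g = -B V^r (X-1)^(r-3)`. By coprimality `X - 1` does not divide both,
say not `f`; then `f * g' = -B V^r` with `g = g' (X-1)^(r-3)`, coprime, so `f` is a unit times
an `r`-th power (exists_associated_pow_of_mul_eq_pow), and `deg f` = degree mod `r`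
(`D` divides `A`, prime to `r`). -/
def S_RND : Prop := ∀ (A r : ℕ) (f g : ℤ[X]), r.Prime → 2 ≤ A → Fac A f g → 5 ≤ r →
  r ∣ 2 * A + 1 → ¬ r ^ 2 ∣ 2 * A + 1 → r ∣ f.natDegree ∨ r ∣ g.natDegree

/-- RB (100 lines, from VAL1, LC): `p = A + 1` prime. Mod `p`:
`T = A (X^(2p) - 1) = A (X-1)^p (X+1)^p`, so `f g = A (X-1)^(p-3) (X+1)^(p-1)`; `p` divides
exactly one of `f(1)`, `g(1)` and exactly one of `f(-1)`, `g(-1)` (VAL1), so each of the two
powers goes completely to one of `f`, `g`, and both have positive degree. -/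
def S_RB : Prop := ∀ (A : ℕ) (f g : ℤ[X]), 4 ≤ A → Fac A f g → (A + 1).Prime →
  f.natDegree + 2 = A ∨ f.natDegree = A

/-- EX2 (30 lines, from OUT LC POS RND RB): all conditions. -/
def S_EX2 : Prop := ∀ (A : ℕ) (f g : ℤ[X]), 2 ≤ A → Fac A f g →
  ∃ D E d e : ℕ, Exc A D E ∧ 0 < d ∧ 0 < e ∧ Even d ∧ Even e ∧ d + e + 2 = 2 * A ∧
    (∀ r : ℕ, r.Prime → 5 ≤ r → r ∣ 2 * A + 1 → ¬ r ^ 2 ∣ 2 * A + 1 → r ∣ d ∨ r ∣ e) ∧
    ((A + 1).Prime → d + 2 = A ∨ d = A)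

/-- TWP (20 lines, from EX2): `A + 1` prime, `r ≥ 7` prime exactly dividing `2A+1`. -/
def S_TWP : Prop := ∀ (A r : ℕ) (f g : ℤ[X]), 2 ≤ A → (A + 1).Prime → r.Prime → 7 ≤ r →
  r ∣ 2 * A + 1 → ¬ r ^ 2 ∣ 2 * A + 1 → ¬ Fac A f g

end Pool.Agent.L7h55.TN
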